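import Pool.Agent.Helper69.QG.St3

/-!
# Project QD, part C, module IOT: the genus two surface group in the Coxeter group `W`
-/

open Complex Set Metric
open scoped ComplexConjugate

namespace Pool.Agent.Helper49.QG

open Pool.Agent.Helper69.QG Pool.Agent.Helper35.PM

/-- The images of the four generators. -/
def gimg {G : Type} [Group G] (a1 b1 a2 b2 : G) : Fin 2 × Bool → G
  | (i, false) => ![a1, a2] i
  | (i, true) => ![b1, b2] i

theorem lift_relator {G : Type} [Group G] (a1 b1 a2 b2 : G)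
    (h : a1 * b1 * a1⁻¹ * b1⁻¹ * (a2 * b2 * a2⁻¹ * b2⁻¹) = 1) :
    ∀ r ∈ ({relator 2} : Set (FreeGroup (Fin 2 × Bool))),
      FreeGroup.lift (gimg a1 b1 a2 b2) r = 1 := by
  intro r hr
  rw [Set.mem_singleton_iff] at hr
  rw [hr]
  simp only [relator, List.ofFn_succ, List.ofFn_zero, List.prod_cons, List.prod_nil, map_mul,
    map_inv, FreeGroup.lift_apply_of, gimg, mul_one]
  exact h

/-- The homomorphism of the genus two group. -/
def toG {G : Type} [Group G] (a1 b1 a2 b2 : G)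
    (h : a1 * b1 * a1⁻¹ * b1⁻¹ * (a2 * b2 * a2⁻¹ * b2⁻¹) = 1) : SurfaceGroup 2 →* G :=
  PresentedGroup.toGroup (lift_relator a1 b1 a2 b2 h)

theorem toG_of {G : Type} [Group G] (a1 b1 a2 b2 : G)
    (h : a1 * b1 * a1⁻¹ * b1⁻¹ * (a2 * b2 * a2⁻¹ * b2⁻¹) = 1) (i : Fin 2) (e : Bool) :
    toG a1 b1 a2 b2 h (sgen 2 i e) = gimg a1 b1 a2 b2 (i, e) :=
  PresentedGroup.toGroup.of _

/-- The relation of the genus two group. -/
theorem rel2 : sgen 2 0 false * sgen 2 0 true * (sgen 2 0 false)⁻¹ * (sgen 2 0 true)⁻¹ *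
    (sgen 2 1 false * sgen 2 1 true * (sgen 2 1 false)⁻¹ * (sgen 2 1 true)⁻¹) = 1 := by
  have h : PresentedGroup.mk ({relator 2} : Set (FreeGroup (Fin 2 × Bool))) (relator 2) = 1 :=
    PresentedGroup.one_of_mem (Set.mem_singleton _)
  simp only [relator, List.ofFn_succ, List.ofFn_zero, List.prod_cons, List.prod_nil, map_mul,
    map_inv, mul_one] at h
  exact h

/-- Induction principle for the genus two group. -/
theorem sind (P : SurfaceGroup 2 → Prop) (h1 : P 1) (hg : ∀ i e, P (sgen 2 i e))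
    (hm : ∀ x y, P x → P y → P (x * y)) (hi : ∀ x, P x → P x⁻¹) : ∀ x, P x := by
  intro x
  have hx : x ∈ Subgroup.closure (Set.range (PresentedGroup.of :
      Fin 2 × Bool → SurfaceGroup 2)) := by
    rw [PresentedGroup.closure_range_of]; trivial
  induction hx using Subgroup.closure_induction with
  | mem x hx =>
    obtain ⟨⟨i, e⟩, rfl⟩ := hx
    exact hg i e
  | one => exact h1
  | mul x y _ _ hx hy => exact hm x y hx hy
  | inv x _ hx => exact hi x hx

theorem gen_sq (s : Fin 4) : gen s * gen s = 1 := cs.simple_mul_simple_self s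

theorem gen_inv (s : Fin 4) : (gen s)⁻¹ = gen s := cs.inv_simple s

/-- Induction by multiplication with generators on the right. -/
theorem wind (P : W → Prop) (h1 : P 1) (hg : ∀ w s, P w → P (w * gen s)) : ∀ w, P w := by
  intro w
  have := cs.simple_induction_right (p := P) w h1 (fun w i hw => hg w i hw)
  exact this

theorem wA_ev : wA ∈ Ev := by
  unfold wA Ev
  rw [MonoidHom.mem_ker, map_mul]
  simp [gen]
  decide

theorem wB_ev : wB ∈ Ev := by
  unfold wB Ev
  rw [MonoidHom.mem_ker, map_mul]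
  simp [gen]
  decide

theorem flat_wA (u : ℂ) : flat wA u = u + 2 := by
  unfold wA
  rw [map_mul, Equiv.Perm.mul_apply, flat_gen, flat_gen]
  simp [fr]
  ring

theorem flat_wB (u : ℂ) : flat wB u = u + 2 * I := by
  unfold wB
  rw [map_mul, Equiv.Perm.mul_apply, flat_gen, flat_gen]
  simp [fr]

/-- Elements acting as translations of the plane. -/
def Tr : Subgroup W where
  carrier := {w | ∃ t : ℂ, ∀ u, flat w u = u + t}
  one_mem' := ⟨0, fun u => by simp⟩
  mul_mem' := by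
    rintro x y ⟨s, hs⟩ ⟨t, ht⟩
    refine ⟨t + s, fun u => ?_⟩
    rw [map_mul, Equiv.Perm.mul_apply, ht, hs, add_assoc]
  inv_mem' := by
    rintro x ⟨s, hs⟩
    refine ⟨-s, fun u => ?_⟩
    rw [map_inv, Equiv.Perm.inv_eq_iff_eq, hs]
    ring

theorem gimg_mem (H : Subgroup W) (hA : wA ∈ H) (hB : wB ∈ H) (i : Fin 2) (e : Bool) :
    gimg (wa1 wA wB) (wb1 wA wB) (wa2 wA wB) (wb2 wA wB) (i, e) ∈ H := by
  have a1 : wa1 wA wB ∈ H := by
    unfold wa1
    exact H.mul_mem (H.mul_mem (H.pow_mem hA _) hB) (H.inv_mem (H.pow_mem hA _))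
  have b1 : wb1 wA wB ∈ H := by
    unfold wb1
    exact H.mul_mem (H.mul_mem (H.mul_mem (H.mul_mem hA (H.inv_mem hB)) hA) hB)
      (H.inv_mem (H.pow_mem hA _))
  have a2 : wa2 wA wB ∈ H := by
    unfold wa2
    exact H.mul_mem (H.mul_mem (H.mul_mem hA (H.inv_mem hB)) hA) hB
  have b2 : wb2 wA wB ∈ H := by
    unfold wb2
    exact H.mul_mem hB (H.inv_mem hA)
  fin_cases i <;> cases e
  · exact a1
  · exact b1
  · exact a2
  · exact b2

theorem stc_mem {G : Type} [Group G] (H : Subgroup G) (a1 b1 a2 b2 : G) (h1 : a1 ∈ H)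
    (h2 : b1 ∈ H) (h3 : a2 ∈ H) (h4 : b2 ∈ H) (s : Fin 4) (t : Ste) :
    stc a1 b1 a2 b2 s t ∈ H := by
  have hy : ∀ i, yl a1 b1 a2 b2 i ∈ H := by
    intro i
    fin_cases i
    · exact h4
    · exact H.mul_mem h4 h3
    · exact h1
    · exact H.mul_mem h1 (H.inv_mem h2)
  have hx : b1⁻¹ * a2 ∈ H := H.mul_mem (H.inv_mem h2) h3
  obtain ⟨i, α, β⟩ := t
  fin_cases s
  · exact H.one_mem
  · show (if α then (if i = 0 then (b1⁻¹ * a2)⁻¹ else 1)
      else (if i = 3 then b1⁻¹ * a2 else 1)) ∈ H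
    split_ifs
    · exact H.inv_mem hx
    · exact H.one_mem
    · exact hx
    · exact H.one_mem
  · exact H.one_mem
  · show (if β then (yl a1 b1 a2 b2 (![1, 0, 3, 2] i))⁻¹ else yl a1 b1 a2 b2 i) ∈ H
    split_ifs
    · exact H.inv_mem (hy _)
    · exact hy _

theorem stn_four : ∀ t : Ste, stn 1 (stn 3 (stn 1 (stn 3 t))) ≠ t := by decide

/-- The second projection of an action on `G × Ste`. -/
theorem proj_action (σ : W →* Equiv.Perm (PUnit × Ste)) :
    ∃ ρ : W →* Equiv.Perm Ste, ∀ w t, (σ w (PUnit.unit, t)).2 = ρ w t := by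
  refine ⟨(Equiv.punitProd Ste).permCongrHom.toMonoidHom.comp σ, fun w t => ?_⟩
  rfl

theorem cIOT (_evl : St_EVL) (wrd : St_WRD) (prm : St_PRM) (rpt : St_RPT) : St_IOT := by
  obtain ⟨hz, hrep⟩ := rpt
  have hrel : wa1 wA wB * wb1 wA wB * (wa1 wA wB)⁻¹ * (wb1 wA wB)⁻¹ *
      (wa2 wA wB * wb2 wA wB * (wa2 wA wB)⁻¹ * (wb2 wA wB)⁻¹) = 1 := by
    apply wrd.1 W wA wB
    · intro x; rw [hz]; exact Commute.one_left x
    · have : (wA * wB * wA⁻¹ * wB⁻¹) ^ 4 = ((wA * wB * wA⁻¹ * wB⁻¹) ^ 2) ^ 2 := by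
        rw [← pow_mul]
      rw [this, hz, one_pow]
  set ι : SurfaceGroup 2 →* W := toG _ _ _ _ hrel with hι
  have hg : ∀ i e, ι (sgen 2 i e) =
      gimg (wa1 wA wB) (wb1 wA wB) (wa2 wA wB) (wb2 wA wB) (i, e) := fun i e =>
    toG_of _ _ _ _ hrel i e
  have h00 : ι (sgen 2 0 false) = wa1 wA wB := hg 0 false
  have h01 : ι (sgen 2 0 true) = wb1 wA wB := hg 0 true
  have h10 : ι (sgen 2 1 false) = wa2 wA wB := hg 1 false
  have h11 : ι (sgen 2 1 true) = wb2 wA wB := hg 1 true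
  have hmemH : ∀ H : Subgroup W, wA ∈ H → wB ∈ H → ∀ x, ι x ∈ H := by
    intro H hA hB
    apply sind
    · rw [map_one]; exact H.one_mem
    · intro i e; rw [hg]; exact gimg_mem H hA hB i e
    · intro x y hx hy; rw [map_mul]; exact H.mul_mem hx hy
    · intro x hx; rw [map_inv]; exact H.inv_mem hx
  refine ⟨ι, ⟨h00, h01, h10, h11⟩, ?_, hmemH Ev wA_ev wB_ev, ?_, ?_, ?_⟩
  · -- injectivity
    obtain ⟨ρ, -, p1, p2, p3, p4⟩ := prm (SurfaceGroup 2) (sgen 2 0 false) (sgen 2 0 true)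
      (sgen 2 1 false) (sgen 2 1 true) rel2
    have key : ∀ y : SurfaceGroup 2, ∀ x, ρ (ι y)⁻¹ (x, ste0) = (x * y, ste0) := by
      apply sind
      · intro x; rw [map_one, inv_one, map_one, mul_one]; rfl
      · intro i e
        fin_cases i <;> cases e
        · intro x; exact (congrArg (fun w => ρ w⁻¹ (x, ste0)) h00).trans (p1 x)
        · intro x; exact (congrArg (fun w => ρ w⁻¹ (x, ste0)) h01).trans (p2 x)
        · intro x; exact (congrArg (fun w => ρ w⁻¹ (x, ste0)) h10).trans (p3 x)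
        · intro x; exact (congrArg (fun w => ρ w⁻¹ (x, ste0)) h11).trans (p4 x)
      · intro a b ha hb x
        rw [map_mul, mul_inv_rev, map_mul, Equiv.Perm.mul_apply, ha, hb, mul_assoc]
      · intro a ha x
        have := ha (x * a⁻¹)
        rw [inv_mul_cancel_right] at this
        rw [map_inv ι, inv_inv]
        have h2 : ρ (ι a) (ρ (ι a)⁻¹ (x * a⁻¹, ste0)) = (x * a⁻¹, ste0) := by
          rw [map_inv]; exact Equiv.apply_symm_apply _ _
        rw [this] at h2
        exact h2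
    intro y y' hyy
    have h1 := key y 1
    have h2 := key y' 1
    rw [hyy, h2] at h1
    have := congrArg Prod.fst h1
    simpa using this.symm
  · -- translations
    exact hmemH Tr ⟨2, flat_wA⟩ ⟨2 * I, flat_wB⟩
  · -- cosets
    apply wind
    · refine ⟨1, ste0, ?_⟩
      simp [repc, ste0]
    · rintro w s ⟨x, t, rfl⟩
      have hm := stc_mem ι.range (wa1 wA wB) (wb1 wA wB) (wa2 wA wB) (wb2 wA wB)
        ⟨_, h00⟩ ⟨_, h01⟩ ⟨_, h10⟩ ⟨_, h11⟩ s t
      obtain ⟨y, hy⟩ := hm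
      refine ⟨x * y, stn s t, ?_⟩
      rw [mul_assoc, hrep s t, map_mul, hy, mul_assoc]
  · -- the finite quotient
    obtain ⟨σ, hσ, p1, p2, p3, p4⟩ := prm PUnit 1 1 1 1 (by simp)
    obtain ⟨ρ, hρ⟩ := proj_action σ
    have hgen : ∀ s t, ρ (gen s) t = stn s t := by
      intro s t; rw [← hρ, hσ]
    refine ⟨ρ, ?_, ?_⟩
    · have base : ∀ w : W, (∀ x, σ w⁻¹ (x, ste0) = (x * 1, ste0)) → ρ w ste0 = ste0 := by
        intro w hw
        have h1 : ρ w⁻¹ ste0 = ste0 := by rw [← hρ, hw]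
        rw [map_inv, Equiv.Perm.inv_eq_iff_eq] at h1
        exact h1.symm
      apply sind
      · rw [map_one, map_one]; rfl
      · intro i e
        fin_cases i <;> cases e
        · exact (congrArg (fun w => ρ w ste0) h00).trans (base _ p1)
        · exact (congrArg (fun w => ρ w ste0) h01).trans (base _ p2)
        · exact (congrArg (fun w => ρ w ste0) h10).trans (base _ p3)
        · exact (congrArg (fun w => ρ w ste0) h11).trans (base _ p4)
      · intro a b ha hb
        rw [map_mul, map_mul, Equiv.Perm.mul_apply, hb, ha]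
      · intro a ha
        rw [map_inv, map_inv, Equiv.Perm.inv_eq_iff_eq, ha]
    · intro t
      rw [pow_two, map_mul, map_mul]
      simp only [Equiv.Perm.mul_apply, hgen]
      exact stn_four t

end Pool.Agent.Helper49.QG
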